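import Pool.Agent.H13.EDM.Targets

/-!
# Row SPL: powers of the system of all products
-/

set_option autoImplicit false

open Pool.Agent.H8.TD (lc dg Wsp)
open Pool.Agent.H13.EDM

namespace Pool.Agent.H7.EDM

/-- The splitting of an exponent. -/
private theorem spt {a : ℕ} (q : ℕ) : ∀ (p : ℕ) (α : Fin a → ℕ), ∑ i, α i ≤ p + q →
    ∃ α' α'' : Fin a → ℕ, α = α' + α'' ∧ ∑ i, α' i ≤ p ∧ ∑ i, α'' i ≤ q := by
  intro p
  induction p with
  | zero =>
    intro α h
    exact ⟨0, α, by simp, by simp, by omega⟩
  | succ p ih =>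
    intro α h
    by_cases h0 : α = 0
    · exact ⟨0, 0, by simp [h0], by simp, by simp⟩
    · obtain ⟨i, hi⟩ := Function.ne_iff.1 h0
      have hi' : 1 ≤ α i := by
        have h1 : α i ≠ 0 := hi
        omega
      have hα : α = (fun j => α j - (Pi.single i 1 : Fin a → ℕ) j) + Pi.single i 1 := by
        funext j
        rcases eq_or_ne j i with rfl | hj
        · simp only [Pi.add_apply, Pi.single_eq_same]
          omega
        · simp [Pi.single_eq_of_ne hj]
      have hs : ∑ j, (Pi.single i 1 : Fin a → ℕ) j = 1 := by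
        rw [Finset.sum_pi_single']
        simp
      have hsum : ∑ j, (α j - (Pi.single i 1 : Fin a → ℕ) j) + 1 = ∑ j, α j := by
        conv_rhs => rw [hα]
        simp only [Pi.add_apply]
        rw [Finset.sum_add_distrib, hs]
      obtain ⟨α', α'', h1, h2, h3⟩ := ih (fun j => α j - (Pi.single i 1 : Fin a → ℕ) j)
        (by omega)
      refine ⟨α' + Pi.single i 1, α'', ?_, ?_, h3⟩
      · rw [hα, h1]
        abel
      · simp only [Pi.add_apply]
        rw [Finset.sum_add_distrib, hs]
        omega

theorem pf_SPL : T_SPL := by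
  intro a b n l C _ A B
  have hfin : {q : C | ∃ (α : Fin a → ℕ) (β : Fin b → ℕ), ∑ i, α i ≤ n ∧
      ∑ i, β i ≤ l ∧ q = (∏ i, A i ^ α i) * ∏ i, B i ^ β i}.Finite := by
    have h1 : (Set.Iic (fun _ : Fin a => n)).Finite := Set.finite_Iic _
    have h2 : (Set.Iic (fun _ : Fin b => l)).Finite := Set.finite_Iic _
    refine ((h1.prod h2).image (fun p => (∏ i, A i ^ p.1 i) * ∏ i, B i ^ p.2 i)).subset ?_
    rintro q ⟨α, β, hα, hβ, rfl⟩
    refine ⟨(α, β), ⟨?_, ?_⟩, rfl⟩
    · intro i
      exact (Finset.single_le_sum (f := α) (fun _ _ => Nat.zero_le _)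
        (Finset.mem_univ i)).trans hα
    · intro i
      exact (Finset.single_le_sum (f := β) (fun _ _ => Nat.zero_le _)
        (Finset.mem_univ i)).trans hβ
  obtain ⟨c, M, -, hM⟩ := hfin.fin_param
  refine ⟨c, M, ?_, ?_, ?_, ?_⟩
  · intro i
    have h : M i ∈ Set.range M := ⟨i, rfl⟩
    rw [hM] at h
    exact h
  · intro hn
    rintro _ ⟨i, rfl⟩
    rw [hM]
    refine ⟨Pi.single i 1, 0, ?_, by simp, ?_⟩
    · rw [Finset.sum_pi_single']
      simpa using hn
    · simp only [Pi.zero_apply, pow_zero, Finset.prod_const_one, mul_one]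
      rw [Finset.prod_eq_single i]
      · simp
      · intro j _ hj
        simp [Pi.single_eq_of_ne hj]
      · simp
  · intro hl
    rintro _ ⟨i, rfl⟩
    rw [hM]
    refine ⟨0, Pi.single i 1, by simp, ?_, ?_⟩
    · rw [Finset.sum_pi_single']
      simpa using hl
    · simp only [Pi.zero_apply, pow_zero, Finset.prod_const_one, one_mul]
      rw [Finset.prod_eq_single i]
      · simp
      · intro j _ hj
        simp [Pi.single_eq_of_ne hj]
      · simp
  · intro κ _ _ t
    have key : ∀ (t : ℕ) (α : Fin a → ℕ) (β : Fin b → ℕ), ∑ i, α i ≤ t * n →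
        ∑ i, β i ≤ t * l → ∃ γ : Fin c → ℕ, ∑ i, γ i ≤ t ∧
          (∏ i, A i ^ α i) * ∏ i, B i ^ β i = ∏ i, M i ^ γ i := by
      intro t
      induction t with
      | zero =>
        intro α β hα hβ
        refine ⟨0, by simp, ?_⟩
        have h1 : α = 0 := by
          funext i
          have := Finset.single_le_sum (f := α) (fun _ _ => Nat.zero_le _) (Finset.mem_univ i)
          simp only [Pi.zero_apply]
          omega
        have h2 : β = 0 := by
          funext i
          have := Finset.single_le_sum (f := β) (fun _ _ => Nat.zero_le _) (Finset.mem_univ i)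
          simp only [Pi.zero_apply]
          omega
        simp [h1, h2]
      | succ t ih =>
        intro α β hα hβ
        obtain ⟨α', α'', e1, e2, e3⟩ := spt (t * n) n α (by
          have : (t + 1) * n = n + t * n := by ring
          omega)
        obtain ⟨β', β'', f1, f2, f3⟩ := spt (t * l) l β (by
          have : (t + 1) * l = l + t * l := by ring
          omega)
        obtain ⟨γ, g1, g2⟩ := ih α'' β'' e3 f3
        have hmem : (∏ i, A i ^ α' i) * ∏ i, B i ^ β' i ∈ Set.range M := by
          rw [hM]
          exact ⟨α', β', e2, f2, rfl⟩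
        obtain ⟨i₀, hi₀⟩ := hmem
        refine ⟨γ + Pi.single i₀ 1, ?_, ?_⟩
        · simp only [Pi.add_apply]
          rw [Finset.sum_add_distrib, Finset.sum_pi_single']
          simpa using g1
        · have hp : ∏ i, M i ^ (Pi.single i₀ 1 : Fin c → ℕ) i = M i₀ := by
            rw [Finset.prod_eq_single i₀]
            · simp
            · intro j _ hj
              simp [Pi.single_eq_of_ne hj]
            · simp
          simp only [Pi.add_apply, pow_add, Finset.prod_mul_distrib]
          rw [hp, hi₀, ← g2, e1, f1]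
          simp only [Pi.add_apply, pow_add, Finset.prod_mul_distrib]
          ring
    refine Submodule.span_mono ?_
    rintro q ⟨α, β, hα, hβ, rfl⟩
    obtain ⟨γ, g1, g2⟩ := key t α β hα hβ
    exact ⟨Fin.elim0, γ, by simp, g1, by rw [g2]; simp⟩

end Pool.Agent.H7.EDM
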